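import Pool.Agent.Lib.P9749df.Final

/-!
# MP_9749df_an: the matrix balls do not admit sup-norm estimates for `∂bar`

For all `p, q ≥ 2` the matrix ball `{Z ∈ ℂ^(p×q) : I_q - Z* Z > 0}` is a bounded symmetric domain
in the Harish-Chandra realisation and does not admit sup-norm estimates for `∂bar`. This answers
the question of the problem in the negative.

Idea. On the ball of symmetric `2 × 2` matrices (in the coordinates `W = i (1 + Z) (1 - Z)^(-1)
= [[q, r], [r, p]]`) consider `u0 = χ(q) ∑ ± exp (i N (p - 2 a r + a^2 q) - (N/4) (r - a q - b)^2)`,
a sum of holomorphic wave packets concentrated on the null lines `r = a q + b`, cut off in `q`.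
The lines are separated where the cut-off lives (so that `∂bar u0` is bounded), but form a Kakeya
set of very small measure for `1/4 ≤ |q| ≤ 4`. The densities
`∑ ± (q / (q + i)^2)^K 1[0 ≤ l ≤ 1] 1[|r - a q - b| ≤ w/16] exp (-i N l)`, with
`l = p - 2 a r + a^2 q`, on the Shilov boundary annihilate all bounded holomorphic functions
(Cauchy's theorem on the complexified null rays), and a comparison of the pairing with `u0` (it is
the integral over one half of the line) with the `L^1` norm (small, by the compression) shows that
no correction of `u0` by a holomorphic function is small.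
-/

namespace Pool.Agent.Results.MP_9749df_an.MatrixBalls

open Pool.Agent.P9749df

theorem result : ∀ p q : ℕ, 2 ≤ p → 2 ≤ q →
    IsBoundedSymmetricDomain (matrixBall p q) ∧ ¬ AdmitsSupNormEstimates (matrixBall p q) :=
  fun p q hp hq => ⟨matrixBall_isBoundedSymmetricDomain p q, not_admits p q hp hq⟩

end Pool.Agent.Results.MP_9749df_an.MatrixBalls
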